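import Pool.Agent.N662.FP.Stm3

/-!
# Project FL part 3: the recursion q -> 2 q - 6 (leaf FN/REC, helper692)
-/

set_option autoImplicit false
open MeasureTheory ProbabilityTheory Filter Set
open scoped ENNReal Pointwise Topology

namespace Pool.Agent.N692.FN

open Pool.Agent.N662.FP

/-- stretched exponentials are smaller than powers -/
theorem se (a c m : ℝ) (ha : 0 < a) (hc : 0 < c) :
    ∀ᶠ t : ℝ in atTop, Real.exp (-(a * t ^ c)) ≤ t ^ m := by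
  have h1 := (isLittleO_exp_neg_mul_rpow_atTop ha (m / c)).comp_tendsto (tendsto_rpow_atTop hc)
  have h2 := h1.bound (c := 1) one_pos
  filter_upwards [h2, eventually_gt_atTop 0] with t ht ht0
  simp only [Function.comp] at ht
  rw [← Real.rpow_mul ht0.le, mul_div_cancel₀ _ hc.ne', one_mul,
    Real.norm_of_nonneg (Real.exp_pos _).le, Real.norm_of_nonneg (Real.rpow_nonneg ht0.le _)] at ht
  rw [← neg_mul]
  exact ht

theorem half_pow (k : ℕ) (W : ℝ) (h : 2 * W ≤ k) : (1 / 2 : ℝ) ^ k ≤ Real.exp (-W) := by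
  have h1 : (1 / 2 : ℝ) ≤ Real.exp (-(1 / 2)) := by
    have := Real.add_one_le_exp (-(1 / 2) : ℝ)
    linarith
  calc (1 / 2 : ℝ) ^ k ≤ (Real.exp (-(1 / 2))) ^ k := pow_le_pow_left₀ (by norm_num) h1 k
    _ = Real.exp (k * (-(1 / 2))) := by rw [← Real.exp_nat_mul]
    _ ≤ Real.exp (-W) := Real.exp_le_exp.2 (by linarith)

theorem fin_est (t q C1 ρ W Rr z1 z2 : ℝ) (ht0 : 0 < t) (hR0 : 1 ≤ Rr) (hR3 : Rr ≤ 103 * t)
    (hρ : ρ = |C1| * t ^ (-q)) (hz1 : z1 ≤ Real.exp (-W)) (hz2 : z2 ≤ Real.exp (-W))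
    (hz3 : 0 ≤ z1) (hz4 : 0 ≤ z2) (g3 : Real.exp (-W) ≤ t ^ (-(2 * q - 6) - 4)) :
    Rr ^ 6 * ρ ^ 2 + Rr ^ 2 * z1 + Rr ^ 2 * z2 + Rr ^ 4 * Real.exp (-W) ≤
      (103 ^ 6 * C1 ^ 2 + 3 * 103 ^ 4) * t ^ (-(2 * q - 6)) := by
  have hR00 : 0 ≤ Rr := by linarith
  have g4 : Rr ^ 4 ≤ (103 * t) ^ 4 := pow_le_pow_left₀ hR00 hR3 4
  have g5 : Rr ^ 6 ≤ (103 * t) ^ 6 := pow_le_pow_left₀ hR00 hR3 6
  have g6 : Rr ^ 2 ≤ Rr ^ 4 := pow_le_pow_right₀ hR0 (by norm_num)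
  have g7 : t ^ (4 : ℕ) * t ^ (-(2 * q - 6) - 4) = t ^ (-(2 * q - 6)) := by
    rw [← Real.rpow_natCast, ← Real.rpow_add ht0]
    congr 1
    push_cast
    ring
  have g8 : t ^ (6 : ℕ) * (t ^ (-q)) ^ 2 = t ^ (-(2 * q - 6)) := by
    rw [← Real.rpow_natCast, ← Real.rpow_natCast, ← Real.rpow_mul ht0.le, ← Real.rpow_add ht0]
    congr 1
    push_cast
    ring
  have hexp := Real.exp_pos (-W)
  have T1 : Rr ^ 6 * ρ ^ 2 ≤ 103 ^ 6 * C1 ^ 2 * t ^ (-(2 * q - 6)) := by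
    calc Rr ^ 6 * ρ ^ 2 ≤ (103 * t) ^ 6 * ρ ^ 2 :=
          mul_le_mul_of_nonneg_right g5 (sq_nonneg _)
      _ = 103 ^ 6 * C1 ^ 2 * (t ^ (6 : ℕ) * (t ^ (-q)) ^ 2) := by
        rw [hρ, mul_pow, mul_pow, sq_abs]; ring
      _ = _ := by rw [g8]
  have T4 : Rr ^ 4 * Real.exp (-W) ≤ 103 ^ 4 * t ^ (-(2 * q - 6)) := by
    calc Rr ^ 4 * Real.exp (-W) ≤ (103 * t) ^ 4 * t ^ (-(2 * q - 6) - 4) :=
          mul_le_mul g4 g3 hexp.le (by positivity)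
      _ = 103 ^ 4 * (t ^ (4 : ℕ) * t ^ (-(2 * q - 6) - 4)) := by rw [mul_pow]; ring
      _ = _ := by rw [g7]
  have T2 : Rr ^ 2 * z1 ≤ Rr ^ 4 * Real.exp (-W) :=
    mul_le_mul g6 hz1 hz3 (by positivity)
  have T3 : Rr ^ 2 * z2 ≤ Rr ^ 4 * Real.exp (-W) :=
    mul_le_mul g6 hz2 hz4 (by positivity)
  rw [add_mul]
  linarith

theorem large (Ω : Type) [MeasureSpace Ω] [IsProbabilityMeasure (volume : Measure Ω)]
    (X : Sym2 (ℤ × ℤ) → Ω → ℝ) (hX : Iid X) (hST : S_STEP) (μ : Seminorm ℝ (ℝ × ℝ)) (C : ℝ)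
    (hC : 0 < C) (hμ : ∀ x : ℝ × ℝ, μ x ≤ C * max |x.1| |x.2|) (κ κ2 q : ℝ) (hκ : 0 < κ)
    (hκ2 : κ < κ2) (hκ3 : κ2 < 1) (hq : 0 < q) (C1 : ℝ)
    (hPP : ∀ t : ℝ, 1 ≤ t → ∀ v : ℤ × ℤ, μ (em v) ≤ t →
      (volume : Measure Ω).real {ω | D (env X ω) 0 v ≤ μ (em v) - t ^ (1 - κ2)} ≤ C1 * t ^ (-q)) :
    ∀ᶠ t : ℝ in atTop, ∀ v : ℤ × ℤ, μ (em v) ≤ t →
      (volume : Measure Ω).real {ω | D (env X ω) 0 v ≤ μ (em v) - t ^ (1 - κ)} ≤
        (103 ^ 6 * C1 ^ 2 + 3 * 103 ^ 4) * t ^ (-(2 * q - 6)) := by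
  set δ : ℝ := (κ2 - κ) / 2 with hδ
  have hδ0 : 0 < δ := by rw [hδ]; linarith
  have hκ1 : 0 < (1 - κ) / 2 := by linarith
  set C2 : ℝ := 102 * C + 1 with hC2
  have hC20 : 0 < C2 := by positivity
  have ev1 := (tendsto_rpow_atTop hκ1).eventually_ge_atTop (152 * C + 2)
  have ev2 := (tendsto_rpow_atTop hδ0).eventually_ge_atTop (8 * C2 ^ (1 - κ2))
  have ev3 := se (Real.log 2) δ (-2) (Real.log_pos one_lt_two) hδ0
  have ev4 := se 1 ((1 - κ) / 2) (-(2 * q - 6) - 4) one_pos hκ1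
  filter_upwards [ev1, ev2, ev3, ev4, eventually_ge_atTop 2] with t h1 h2 h3 h4 h5
  intro v hv
  have ht0 : 0 < t := by linarith
  have ht1 : 1 ≤ t := by linarith
  set W : ℝ := t ^ ((1 - κ) / 2) with hW
  have hW0 : 0 < W := Real.rpow_pos_of_pos ht0 _
  have hWt : W ≤ t := by
    calc W ≤ t ^ (1 : ℝ) := Real.rpow_le_rpow_of_exponent_le ht1 (by linarith)
      _ = t := Real.rpow_one t
  set s : ℝ := t ^ (1 - κ) with hs
  have hsW : s = W * W := by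
    rw [hs, hW, ← Real.rpow_add ht0]
    congr 1
    ring
  have hW2 : 2 ≤ W := by linarith [mul_pos (by norm_num : (0 : ℝ) < 152) hC]
  have hs4 : 4 ≤ s := by rw [hsW]; nlinarith
  set R : ℕ := ⌈25 * (t + 1)⌉₊ with hR
  have hR1 : 25 * (t + 1) ≤ (R : ℝ) := Nat.le_ceil _
  have hR2 : (R : ℝ) < 25 * (t + 1) + 1 := Nat.ceil_lt_add_one (by linarith)
  set L : ℕ := ⌈t ^ δ⌉₊ with hL
  have htδ : 0 < t ^ δ := Real.rpow_pos_of_pos ht0 _
  have htδ1 : 1 ≤ t ^ δ := Real.one_le_rpow ht1 hδ0.le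
  have hL1 : t ^ δ ≤ (L : ℝ) := Nat.le_ceil _
  have hL2 : (L : ℝ) < t ^ δ + 1 := Nat.ceil_lt_add_one htδ.le
  have hL0 : (0 : ℝ) < L := by linarith
  set a : ℝ := s / (4 * L) with ha
  have hLa : L * a = s / 4 := by rw [ha]; field_simp
  have ha0 : 0 ≤ a := by positivity
  set k : ℕ := ⌊s / (2 * C)⌋₊ with hk
  have hk1 : (k : ℝ) ≤ s / (2 * C) := Nat.floor_le (by positivity)
  have hk2 : s / (2 * C) < (k : ℝ) + 1 := Nat.lt_floor_add_one _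
  have hkW : 26 + 50 * W ≤ (k : ℝ) + 1 := by
    have h6 : 26 + 50 * W ≤ s / (2 * C) := by
      rw [le_div_iff₀ (by positivity), hsW]
      nlinarith [mul_pos hC hW0]
    linarith
  have hpow : t + 1 ≤ (2 : ℝ) ^ L := by
    have h6 : (t : ℝ) ^ (2 : ℝ) ≤ Real.exp (Real.log 2 * t ^ δ) := by
      rw [Real.rpow_neg ht0.le, Real.exp_neg] at h3
      exact (inv_le_inv₀ (Real.exp_pos _) (Real.rpow_pos_of_pos ht0 _)).1 h3
    have h7 : Real.exp (Real.log 2 * t ^ δ) ≤ (2 : ℝ) ^ L := by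
      calc Real.exp (Real.log 2 * t ^ δ) ≤ Real.exp (Real.log 2 * L) :=
            Real.exp_le_exp.2 (mul_le_mul_of_nonneg_left hL1 (Real.log_pos one_lt_two).le)
        _ = (2 : ℝ) ^ (L : ℝ) := by rw [Real.rpow_def_of_pos (by norm_num : (0 : ℝ) < 2)]
        _ = (2 : ℝ) ^ L := Real.rpow_natCast 2 L
    have h8 : t + 1 ≤ t ^ (2 : ℝ) := by
      rw [Real.rpow_two]
      nlinarith
    linarith
  have ha2 : (C2 * t) ^ (1 - κ2) ≤ a := by
    rw [ha, le_div_iff₀ (by positivity), Real.mul_rpow hC20.le ht0.le]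
    have h6 : 4 * (L : ℝ) ≤ 8 * t ^ δ := by linarith
    have h7 : 0 < C2 ^ (1 - κ2) := Real.rpow_pos_of_pos hC20 _
    have h8 : 0 < t ^ (1 - κ2) := Real.rpow_pos_of_pos ht0 _
    have h9 : s = t ^ δ * (t ^ δ * t ^ (1 - κ2)) := by
      rw [hs, ← Real.rpow_add ht0, ← Real.rpow_add ht0]
      congr 1
      rw [hδ]
      ring
    calc C2 ^ (1 - κ2) * t ^ (1 - κ2) * (4 * L) ≤ C2 ^ (1 - κ2) * t ^ (1 - κ2) * (8 * t ^ δ) :=
          mul_le_mul_of_nonneg_left h6 (by positivity)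
      _ = (8 * C2 ^ (1 - κ2)) * (t ^ δ * t ^ (1 - κ2)) := by ring
      _ ≤ t ^ δ * (t ^ δ * t ^ (1 - κ2)) := mul_le_mul_of_nonneg_right h2 (by positivity)
      _ = s := h9.symm
  set ρ : ℝ := |C1| * t ^ (-q) with hρ
  have hρ0 : 0 ≤ ρ := mul_nonneg (abs_nonneg _) (Real.rpow_nonneg ht0.le _)
  have hbox : ∀ v' ∈ Box (2 * R),
      (volume : Measure Ω).real {ω | D (env X ω) 0 v' ≤ μ (em v') - a} ≤ ρ := by
    intro v' hv'
    unfold Box at hv'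
    rw [Finset.mem_product, Finset.mem_Icc, Finset.mem_Icc] at hv'
    obtain ⟨⟨b1, b2⟩, b3, b4⟩ := hv'
    have c1 : |((v'.1 : ℤ) : ℝ)| ≤ 2 * R := by
      rw [abs_le]
      constructor
      · have : (-((2 * R : ℕ) : ℤ) : ℝ) ≤ ((v'.1 : ℤ) : ℝ) := by exact_mod_cast b1
        push_cast at this
        linarith
      · have : ((v'.1 : ℤ) : ℝ) ≤ (((2 * R : ℕ) : ℤ) : ℝ) := by exact_mod_cast b2
        push_cast at this
        linarith
    have c2 : |((v'.2 : ℤ) : ℝ)| ≤ 2 * R := by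
      rw [abs_le]
      constructor
      · have : (-((2 * R : ℕ) : ℤ) : ℝ) ≤ ((v'.2 : ℤ) : ℝ) := by exact_mod_cast b3
        push_cast at this
        linarith
      · have : ((v'.2 : ℤ) : ℝ) ≤ (((2 * R : ℕ) : ℤ) : ℝ) := by exact_mod_cast b4
        push_cast at this
        linarith
    have c3 : μ (em v') ≤ C2 * t := by
      calc μ (em v') ≤ C * max |(em v').1| |(em v').2| := hμ _
        _ ≤ C * (2 * R) := mul_le_mul_of_nonneg_left (max_le c1 c2) hC.le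
        _ ≤ C2 * t := by rw [hC2]; nlinarith
    have c4 : 1 ≤ C2 * t := by rw [hC2]; nlinarith
    have c5 := hPP (C2 * t) c4 v' c3
    have c6 : (volume : Measure Ω).real {ω | D (env X ω) 0 v' ≤ μ (em v') - a} ≤
        (volume : Measure Ω).real {ω | D (env X ω) 0 v' ≤ μ (em v') - (C2 * t) ^ (1 - κ2)} := by
      have hsub : {ω | D (env X ω) 0 v' ≤ μ (em v') - a} ⊆
          {ω | D (env X ω) 0 v' ≤ μ (em v') - (C2 * t) ^ (1 - κ2)} := by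
        intro ω hω
        have hω2 : D (env X ω) 0 v' ≤ μ (em v') - a := hω
        show D (env X ω) 0 v' ≤ μ (em v') - (C2 * t) ^ (1 - κ2)
        linarith
      exact measureReal_mono hsub (measure_ne_top _ _)
    have c7 : (C2 * t) ^ (-q) ≤ t ^ (-q) :=
      Real.rpow_le_rpow_of_nonpos ht0 (by rw [hC2]; nlinarith) (by linarith)
    calc _ ≤ _ := c6
      _ ≤ C1 * (C2 * t) ^ (-q) := c5
      _ ≤ |C1| * (C2 * t) ^ (-q) :=
        mul_le_mul_of_nonneg_right (le_abs_self _) (Real.rpow_nonneg (by linarith) _)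
      _ ≤ |C1| * t ^ (-q) := mul_le_mul_of_nonneg_left c7 (abs_nonneg _)
  have hstep := hST Ω X hX μ C hC hμ R k L v s a W ρ (by linarith) ha0 hW0.le hρ0
    (by linarith) (by
      rw [hLa]
      have : C * k ≤ C * (s / (2 * C)) := mul_le_mul_of_nonneg_left hk1 hC.le
      have e : C * (s / (2 * C)) = s / 2 := by field_simp
      linarith) (by
      have h6 : (μ (em v) + 1) / 2 ^ L ≤ 1 := by
        rw [div_le_one (by positivity)]
        linarith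
      linarith) hbox
  have hR3 : 2 * (R : ℝ) + 1 ≤ 103 * t := by linarith
  have hR0 : (1 : ℝ) ≤ 2 * (R : ℝ) + 1 := by linarith
  have g1 : (1 / 2 : ℝ) ^ k ≤ Real.exp (-W) := half_pow k W (by linarith)
  have g2 : (1 / 2 : ℝ) ^ R ≤ Real.exp (-W) := half_pow R W (by linarith)
  have g3 : Real.exp (-W) ≤ t ^ (-(2 * q - 6) - 4) := by
    rw [one_mul] at h4
    exact h4
  exact hstep.trans (fin_est t q C1 ρ W (2 * R + 1) _ _ ht0 hR0 hR3 hρ g1 g2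
    (by positivity) (by positivity) g3)

theorem t_REC (h1 : S_STEP) (h2 : S_NORM) : S_REC := by
  intro Ω _ _ X hX μ hμ κ κ2 q hκ hκ2 hκ3 hq hPP
  obtain ⟨c, C, hc, hC, hcC⟩ := h2 μ hμ
  obtain ⟨C1, hC1⟩ := hPP
  have hl := large Ω X hX h1 μ C hC (fun x => (hcC x).2) κ κ2 q hκ hκ2 hκ3 hq C1 hC1
  rw [eventually_atTop] at hl
  obtain ⟨t0, ht0⟩ := hl
  set A : ℝ := 103 ^ 6 * C1 ^ 2 + 3 * 103 ^ 4 with hA
  have hA0 : 0 ≤ A := by positivity
  set B : ℝ := (max t0 1) ^ |2 * q - 6| with hB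
  have hB0 : 0 ≤ B := Real.rpow_nonneg (le_max_of_le_right zero_le_one) _
  refine ⟨A + B, fun t ht v hv => ?_⟩
  have htp : 0 < t := by linarith
  have hpos : 0 < t ^ (-(2 * q - 6)) := Real.rpow_pos_of_pos htp _
  rcases le_total t0 t with h | h
  · refine (ht0 t h v hv).trans ?_
    apply mul_le_mul_of_nonneg_right _ hpos.le
    linarith
  · have e1 : 1 ≤ B * t ^ (-(2 * q - 6)) := by
      have e2 : t ^ (2 * q - 6) ≤ B := by
        calc t ^ (2 * q - 6) ≤ t ^ |2 * q - 6| :=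
              Real.rpow_le_rpow_of_exponent_le ht (le_abs_self _)
          _ ≤ B := Real.rpow_le_rpow htp.le (h.trans (le_max_left _ _)) (abs_nonneg _)
      have e3 : t ^ (2 * q - 6) * t ^ (-(2 * q - 6)) = 1 := by
        rw [← Real.rpow_add htp, add_neg_cancel, Real.rpow_zero]
      calc (1 : ℝ) = t ^ (2 * q - 6) * t ^ (-(2 * q - 6)) := e3.symm
        _ ≤ B * t ^ (-(2 * q - 6)) := mul_le_mul_of_nonneg_right e2 hpos.le
    have e4 : (volume : Measure Ω).real {ω | D (env X ω) 0 v ≤ μ (em v) - t ^ (1 - κ)} ≤ 1 :=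
      measureReal_le_one
    rw [add_mul]
    have e5 : 0 ≤ A * t ^ (-(2 * q - 6)) := mul_nonneg hA0 hpos.le
    linarith

end Pool.Agent.N692.FN
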